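import Pool.Agent.helper92.ISO.SpecC
set_option autoImplicit false
open Filter Topology
namespace Pool.Agent.ISO
open Pool.Agent.PB

open Classical in
theorem MLS_avg (α ι : Type) [Fintype α] [Fintype ι] [Nonempty ι] (hit : ι → α → Prop) (q : ℝ)
    (h : ∀ a, q * Fintype.card ι ≤ ((Finset.univ.filter fun i => hit i a).card : ℝ))
    (μ : α → ℝ) (hμ : ∀ a, 0 ≤ μ a) (hμ1 : ∑ a, μ a = 1) : ∃ i, q ≤ ∑ a with hit i a, μ a := by
  by_contra hc
  push Not at hc
  have h1 : ∑ i : ι, ∑ a with hit i a, μ a < ∑ _i : ι, q :=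
    Finset.sum_lt_sum_of_nonempty Finset.univ_nonempty fun i _ => hc i
  have h2 : ∑ i : ι, ∑ a with hit i a, μ a =
      ∑ a, μ a * ((Finset.univ.filter fun i => hit i a).card : ℝ) := by
    have h3 : ∀ i : ι, ∑ a with hit i a, μ a = ∑ a, if hit i a then μ a else 0 := fun i =>
      Finset.sum_filter _ _
    rw [Finset.sum_congr rfl fun i _ => h3 i, Finset.sum_comm]
    refine Finset.sum_congr rfl fun a _ => ?_
    rw [← Finset.sum_filter, Finset.sum_const, nsmul_eq_mul, mul_comm]
  have h4 : q * Fintype.card ι ≤ ∑ a, μ a * ((Finset.univ.filter fun i => hit i a).card : ℝ) := by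
    calc q * Fintype.card ι = ∑ a, μ a * (q * Fintype.card ι) := by
          rw [← Finset.sum_mul, hμ1, one_mul]
      _ ≤ _ := Finset.sum_le_sum fun a _ => mul_le_mul_of_nonneg_left (h a) (hμ a)
  rw [h2, Finset.sum_const, nsmul_eq_mul, Finset.card_univ] at h1
  linarith [mul_comm q (Fintype.card ι : ℝ)]

theorem MLS_proof (hHIN : HIN_stmt) (hPTL : PTL_stmt) : MLS_stmt := by
  classical
  intro n w r m k f lam hl0 hl1 hm
  have h2r : (0 : ℝ) < 2 * 2 ^ r := by positivity
  obtain ⟨q, hq⟩ : ∃ q : ℝ, q = 1 - (m : ℝ) ^ 2 / (2 * 2 ^ r) := ⟨_, rfl⟩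
  have hq0 : 0 ≤ q := by
    rw [hq, sub_nonneg, div_le_one h2r]
    exact hm
  by_cases hne : ∃ x : Fin n → Bool, wit f x ≤ m
  · obtain ⟨x₀, hx₀⟩ := hne
    haveI : Nonempty {x : Fin n → Bool // wit f x ≤ m} := ⟨⟨x₀, hx₀⟩⟩
    obtain ⟨L, hL⟩ := hPTL {x : Fin n → Bool // wit f x ≤ m} (Fin r → Fin w → Bool)
      (fun A x => Set.InjOn (lin A) {y : Fin w → Bool | f (Fin.append x.1 y) = true}) q lam k
      hl0 hl1 hq0 (by
        intro μ hμ hμ1
        refine MLS_avg _ _ _ q ?_ μ hμ hμ1
        intro x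
        have h1 := hHIN w r m (Finset.univ.filter fun y : Fin w → Bool => f (Fin.append x.1 y) = true) x.2
        have hset : ((Finset.univ.filter fun y : Fin w → Bool => f (Fin.append x.1 y) = true :
            Finset (Fin w → Bool)) : Set (Fin w → Bool)) =
            {y : Fin w → Bool | f (Fin.append x.1 y) = true} := by
          ext y
          simp
        have h1b : 2 * 2 ^ r * (Finset.univ.filter fun A : Fin r → Fin w → Bool =>
            ¬ Set.InjOn (lin A) {y : Fin w → Bool | f (Fin.append x.1 y) = true}).card ≤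
            m ^ 2 * Fintype.card (Fin r → Fin w → Bool) := by
          refine le_trans (le_of_eq (congrArg (fun N => 2 * 2 ^ r * N)
            (congrArg Finset.card (Finset.ext fun A => ?_)))) h1
          simp only [Finset.mem_filter, hset]
        have h2 := Finset.card_filter_add_card_filter_not (s := (Finset.univ : Finset (Fin r → Fin w → Bool)))
          (fun A => Set.InjOn (lin A) {y : Fin w → Bool | f (Fin.append x.1 y) = true})
        rw [Finset.card_univ] at h2
        obtain ⟨N, hN⟩ : ∃ N : ℕ, N = (Finset.univ.filter fun A : Fin r → Fin w → Bool =>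
          ¬ Set.InjOn (lin A) {y : Fin w → Bool | f (Fin.append x.1 y) = true}).card := ⟨_, rfl⟩
        rw [← hN] at h1b h2
        have h1' : 2 * 2 ^ r * (N : ℝ) ≤ (m : ℝ) ^ 2 * (Fintype.card (Fin r → Fin w → Bool) : ℝ) := by
          exact_mod_cast h1b
        have h2' : ((Finset.univ.filter fun A : Fin r → Fin w → Bool =>
          Set.InjOn (lin A) {y : Fin w → Bool | f (Fin.append x.1 y) = true}).card : ℝ) + (N : ℝ) =
            (Fintype.card (Fin r → Fin w → Bool) : ℝ) := by
          exact_mod_cast h2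
        have h3 : (N : ℝ) ≤ (m : ℝ) ^ 2 / (2 * 2 ^ r) * (Fintype.card (Fin r → Fin w → Bool) : ℝ) := by
          rw [div_mul_eq_mul_div, le_div_iff₀ h2r]
          linarith
        have h4 : q * (Fintype.card (Fin r → Fin w → Bool) : ℝ) =
            (Fintype.card (Fin r → Fin w → Bool) : ℝ) -
              (m : ℝ) ^ 2 / (2 * 2 ^ r) * (Fintype.card (Fin r → Fin w → Bool) : ℝ) := by
          rw [hq]
          ring
        rw [h4]
        linarith)
    refine ⟨L, ?_⟩
    intro x hx
    have h5 := hL ⟨x, hx⟩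
    refine le_trans ?_ h5
    rw [← hq]
    have h6 : Real.log (Fintype.card {x : Fin n → Bool // wit f x ≤ m}) ≤ n * Real.log 2 := by
      have h7 : Fintype.card {x : Fin n → Bool // wit f x ≤ m} ≤ 2 ^ n := by
        refine (Fintype.card_subtype_le _).trans (le_of_eq ?_)
        rw [Fintype.card_fun, Fintype.card_bool, Fintype.card_fin]
      have h8 : (0 : ℝ) < Fintype.card {x : Fin n → Bool // wit f x ≤ m} := by
        exact_mod_cast Fintype.card_pos
      rw [← Real.log_pow]
      apply Real.log_le_log h8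
      exact_mod_cast h7
    have h9 := div_le_div_of_nonneg_right h6 hl0.le
    linarith
  · exact ⟨fun _ _ _ => false, fun x hx => absurd ⟨x, hx⟩ hne⟩

end Pool.Agent.ISO
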