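import Pool.Agent.helper92.ISO.SpecC
set_option autoImplicit false
open Filter Topology
namespace Pool.Agent.ISO
open Pool.Agent.PB

theorem PB2_poly (E n : ℕ) : (n + 2) ^ E ≤ n ^ (4 ^ E) + 4 ^ E := by
  rcases Nat.lt_or_ge n 3 with h | h
  · have h1 : (n + 2) ^ E ≤ 4 ^ E := Nat.pow_le_pow_left (by omega) E
    omega
  · have h1 : (n + 2) ^ E ≤ (n ^ 2) ^ E := Nat.pow_le_pow_left (by nlinarith) E
    have h2 : 2 * E ≤ 4 ^ E := by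
      have h3 : E < 2 ^ E := Nat.lt_two_pow_self
      have h4 : (4 : ℕ) ^ E = 2 ^ E * 2 ^ E := by
        rw [← mul_pow]
        norm_num
      rcases Nat.eq_zero_or_pos E with h5 | h5
      · rw [h5]
        norm_num
      · have h6 : 2 ≤ 2 ^ E := by
          calc 2 = 2 ^ 1 := rfl
            _ ≤ 2 ^ E := Nat.pow_le_pow_right (by norm_num) h5
        rw [h4]
        nlinarith
    have h7 : n ^ (2 * E) ≤ n ^ (4 ^ E) := Nat.pow_le_pow_right (by omega) h2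
    rw [← pow_mul] at h1
    omega

theorem PB2_c (c n : ℕ) : n ^ c + c ≤ (n + 2) ^ (c + 1) := by
  have h1 : n ^ c ≤ (n + 2) ^ c := Nat.pow_le_pow_left (by omega) c
  have h2 : c ≤ (n + 2) ^ c := by
    calc c ≤ 2 ^ c := Nat.lt_two_pow_self.le
      _ ≤ (n + 2) ^ c := Nat.pow_le_pow_left (by omega) c
  calc n ^ c + c ≤ (n + 2) ^ c * 2 := by omega
    _ ≤ (n + 2) ^ c * (n + 2) := Nat.mul_le_mul_left _ (by omega)
    _ = (n + 2) ^ (c + 1) := (pow_succ _ _).symm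

/-- the numbers of one input length -/
theorem PB2_one (δ : ℝ) (hδ : 0 < δ) (hδ1 : δ ≤ 1 / 8) (n m : ℕ) (θ : ℝ) (hm : 1 ≤ m) (hθ : 0 < θ)
    (hθ1 : 1 / 2 ≤ θ * (Real.log (2 * m) + 1)) : ∃ r k1 k2 : ℕ, 1 ≤ k1 ∧ 1 ≤ k2 ∧
      (m : ℝ) ^ 2 ≤ 2 * 2 ^ r ∧ (2 : ℝ) ^ r ≤ 4 * m ^ 2 / δ ∧ (k1 : ℝ) ≤ 18 * m ^ 4 / δ ^ 3 ∧
      (k2 : ℝ) ≤ (n + 2) / δ ^ 2 ∧
      0 ≤ (1 - δ) * θ * k1 - m * Real.log (2 ^ r + 1) / δ ∧
      0 ≤ (1 - δ) * (1 - (m : ℝ) ^ 2 / (2 * 2 ^ r)) * k2 - n * Real.log 2 / δ ∧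
      (1 - 8 * δ) * θ * (k1 * k2 : ℕ) ≤ ((1 - δ) * θ * k1 - m * Real.log (2 ^ r + 1) / δ) *
        ((1 - δ) * (1 - (m : ℝ) ^ 2 / (2 * 2 ^ r)) * k2 - n * Real.log 2 / δ) := by
  have hmR : (1 : ℝ) ≤ m := by exact_mod_cast hm
  have hm2 : (1 : ℝ) ≤ (m : ℝ) ^ 2 := one_le_pow₀ hmR
  have hl2 : 0 < Real.log 2 := Real.log_pos (by norm_num)
  have hl21 : Real.log 2 ≤ 1 := by
    have := Real.log_two_lt_d9
    linarith
  obtain ⟨x, hx⟩ : ∃ x : ℕ, x = ⌈(m : ℝ) ^ 2 / δ⌉₊ := ⟨_, rfl⟩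
  have hx1 : (m : ℝ) ^ 2 / δ ≤ x := by rw [hx]; exact Nat.le_ceil _
  have hx2 : (x : ℝ) < (m : ℝ) ^ 2 / δ + 1 := by rw [hx]; exact Nat.ceil_lt_add_one (by positivity)
  have hmd : (m : ℝ) ^ 2 ≤ (m : ℝ) ^ 2 / δ := by
    rw [le_div_iff₀ hδ]
    nlinarith
  have hxpos : 1 ≤ x := by
    have h1 : (1 : ℝ) ≤ x := by linarith
    exact_mod_cast h1
  obtain ⟨r, hr⟩ : ∃ r : ℕ, r = Nat.clog 2 x := ⟨_, rfl⟩
  have hr1 : x ≤ 2 ^ r := by rw [hr]; exact Nat.le_pow_clog (by norm_num) x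
  have hr2 : 2 ^ r ≤ 2 * x := by
    rcases Nat.lt_or_ge 1 x with h | h
    · have h1 := Nat.pow_pred_clog_lt_self (b := 2) (by norm_num) h
      rw [← hr] at h1
      have h2 : 1 ≤ r := by
        by_contra hc
        have h3 : r = 0 := by omega
        rw [h3] at hr1
        omega
      have h4 : 2 ^ r = 2 * 2 ^ (r - 1) := by
        rw [← pow_succ']
        congr 1
        omega
      have h5 : r.pred = r - 1 := rfl
      rw [h4]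
      rw [h5] at h1
      omega
    · have h1 : x = 1 := by omega
      rw [hr, h1]
      norm_num
  have hr1R : (x : ℝ) ≤ 2 ^ r := by exact_mod_cast hr1
  have hr2R : (2 : ℝ) ^ r ≤ 2 * x := by exact_mod_cast hr2
  have h2r : (0 : ℝ) < 2 ^ r := by positivity
  have h2r1 : (1 : ℝ) ≤ 2 ^ r := one_le_pow₀ (by norm_num)
  have hrb : (2 : ℝ) ^ r ≤ 4 * m ^ 2 / δ := by
    have h1 : 4 * (m : ℝ) ^ 2 / δ = 4 * ((m : ℝ) ^ 2 / δ) := by ring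
    rw [h1]
    linarith
  -- `θ` from below
  have hlog2m : Real.log (2 * m) + 1 ≤ 2 * m := by
    have := Real.log_le_sub_one_of_pos (show (0 : ℝ) < 2 * m by positivity)
    linarith
  have hθm : 1 ≤ θ * (4 * m) := by
    have h1 : θ * (Real.log (2 * m) + 1) ≤ θ * (2 * m) := mul_le_mul_of_nonneg_left hlog2m hθ.le
    linarith
  -- `L = log (2^r + 1)`
  obtain ⟨L, hL⟩ : ∃ L : ℝ, L = Real.log (2 ^ r + 1) := ⟨_, rfl⟩
  have hL0 : 0 ≤ L := by rw [hL]; exact Real.log_nonneg (by linarith)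
  have hL1 : L ≤ 2 ^ r := by
    rw [hL]
    have := Real.log_le_sub_one_of_pos (show (0 : ℝ) < 2 ^ r + 1 by positivity)
    linarith
  obtain ⟨y, hy⟩ : ∃ y : ℝ, y = m * L / (δ ^ 2 * θ) := ⟨_, rfl⟩
  have hy0 : 0 ≤ y := by rw [hy]; positivity
  obtain ⟨k1, hk1⟩ : ∃ k1 : ℕ, k1 = ⌈y⌉₊ + 1 := ⟨_, rfl⟩
  have hk1a : y ≤ k1 := by
    rw [hk1]
    push_cast
    have := Nat.le_ceil y
    linarith
  have hk1b : (k1 : ℝ) ≤ y + 2 := by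
    rw [hk1]
    push_cast
    have := Nat.ceil_lt_add_one hy0
    linarith
  obtain ⟨z, hz⟩ : ∃ z : ℝ, z = n * Real.log 2 / δ ^ 2 := ⟨_, rfl⟩
  have hz0 : 0 ≤ z := by rw [hz]; positivity
  obtain ⟨k2, hk2⟩ : ∃ k2 : ℕ, k2 = ⌈z⌉₊ + 1 := ⟨_, rfl⟩
  have hk2a : z ≤ k2 := by
    rw [hk2]
    push_cast
    have := Nat.le_ceil z
    linarith
  have hk2b : (k2 : ℝ) ≤ z + 2 := by
    rw [hk2]
    push_cast
    have := Nat.ceil_lt_add_one hz0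
    linarith
  have hk1n : (0 : ℝ) ≤ k1 := Nat.cast_nonneg _
  have hk2n : (0 : ℝ) ≤ k2 := Nat.cast_nonneg _
  have hA1 : m * L / δ ≤ δ * θ * k1 := by
    have h1 : m * L / δ = δ * θ * y := by
      rw [hy]
      field_simp
    rw [h1]
    exact mul_le_mul_of_nonneg_left hk1a (by positivity)
  have hA : (1 - 2 * δ) * θ * k1 ≤ (1 - δ) * θ * k1 - m * L / δ := by linarith
  have hB1 : n * Real.log 2 / δ ≤ δ * k2 := by
    have h1 : n * Real.log 2 / δ = δ * z := by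
      rw [hz]
      field_simp
    rw [h1]
    exact mul_le_mul_of_nonneg_left hk2a hδ.le
  have hq : (m : ℝ) ^ 2 / (2 * 2 ^ r) ≤ δ / 2 := by
    rw [div_le_div_iff₀ (by positivity) (by norm_num)]
    have h1 : (m : ℝ) ^ 2 ≤ 2 ^ r * δ := by
      rw [← div_le_iff₀ hδ]
      linarith
    linarith
  have hB : (1 - 5 / 2 * δ) * k2 ≤
      (1 - δ) * (1 - (m : ℝ) ^ 2 / (2 * 2 ^ r)) * k2 - n * Real.log 2 / δ := by
    have h1 : (1 - δ) * (1 - δ / 2) ≤ (1 - δ) * (1 - (m : ℝ) ^ 2 / (2 * 2 ^ r)) :=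
      mul_le_mul_of_nonneg_left (by linarith) (by linarith)
    have h2 : 1 - 3 / 2 * δ ≤ (1 - δ) * (1 - δ / 2) := by nlinarith
    have h3 : (1 - 3 / 2 * δ) * k2 ≤ (1 - δ) * (1 - (m : ℝ) ^ 2 / (2 * 2 ^ r)) * k2 :=
      mul_le_mul_of_nonneg_right (h2.trans h1) hk2n
    linarith
  have hA0 : 0 ≤ (1 - 2 * δ) * θ * k1 :=
    mul_nonneg (mul_nonneg (by linarith) hθ.le) hk1n
  have hB0 : 0 ≤ (1 - 5 / 2 * δ) * k2 := mul_nonneg (by linarith) hk2n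
  refine ⟨r, k1, k2, by omega, by omega, by linarith, hrb, ?_, ?_, ?_, ?_, ?_⟩
  · have h1 : y ≤ 16 * m ^ 4 / δ ^ 3 := by
      rw [hy, div_le_div_iff₀ (by positivity) (by positivity)]
      have h2 : L ≤ 4 * m ^ 2 / δ := hL1.trans hrb
      have h3 : L * δ ≤ 4 * m ^ 2 := by rwa [le_div_iff₀ hδ] at h2
      calc (m : ℝ) * L * δ ^ 3 = m * δ ^ 2 * (L * δ) := by ring
        _ ≤ m * δ ^ 2 * (4 * m ^ 2) := mul_le_mul_of_nonneg_left h3 (by positivity)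
        _ = (4 * m ^ 3 * δ ^ 2) * 1 := by ring
        _ ≤ (4 * m ^ 3 * δ ^ 2) * (θ * (4 * m)) := mul_le_mul_of_nonneg_left hθm (by positivity)
        _ = 16 * m ^ 4 * (δ ^ 2 * θ) := by ring
    have h4 : (2 : ℝ) ≤ 2 * m ^ 4 / δ ^ 3 := by
      rw [le_div_iff₀ (by positivity)]
      have h5 : δ ^ 3 ≤ 1 := pow_le_one₀ hδ.le (by linarith)
      have h6 : (1 : ℝ) ≤ (m : ℝ) ^ 4 := one_le_pow₀ hmR
      linarith
    have h7 : 18 * (m : ℝ) ^ 4 / δ ^ 3 = 16 * m ^ 4 / δ ^ 3 + 2 * m ^ 4 / δ ^ 3 := by ring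
    rw [h7]
    linarith
  · have h1 : z ≤ n / δ ^ 2 := by
      rw [hz]
      apply div_le_div_of_nonneg_right _ (by positivity)
      exact mul_le_of_le_one_right (Nat.cast_nonneg _) hl21
    have h4 : (2 : ℝ) ≤ 2 / δ ^ 2 := by
      rw [le_div_iff₀ (by positivity)]
      have h5 : δ ^ 2 ≤ 1 := pow_le_one₀ hδ.le (by linarith)
      linarith
    rw [add_div]
    linarith
  · rw [← hL]
    linarith
  · linarith
  · rw [← hL]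
    have h1 : ((1 - 2 * δ) * θ * k1) * ((1 - 5 / 2 * δ) * k2) ≤
        ((1 - δ) * θ * k1 - m * L / δ) *
        ((1 - δ) * (1 - (m : ℝ) ^ 2 / (2 * 2 ^ r)) * k2 - n * Real.log 2 / δ) :=
      mul_le_mul hA hB hB0 (by linarith)
    refine le_trans ?_ h1
    have h2 : ((1 - 2 * δ) * θ * k1) * ((1 - 5 / 2 * δ) * k2) =
        ((1 - 2 * δ) * (1 - 5 / 2 * δ)) * (θ * (k1 * k2)) := by ring
    have h3 : (1 - 8 * δ) * θ * ((k1 * k2 : ℕ) : ℝ) = (1 - 8 * δ) * (θ * (k1 * k2)) := by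
      push_cast
      ring
    rw [h2, h3]
    apply mul_le_mul_of_nonneg_right _ (by positivity)
    nlinarith

theorem PB2_num (δ : ℝ) (hδ : 0 < δ) (hδ1 : δ ≤ 1 / 8) (c c' : ℕ) : ∃ c'' : ℕ,
    ∀ (n m w s : ℕ) (θ : ℝ), 1 ≤ m → m ≤ n ^ c + c → w ≤ n ^ c' + c' → s ≤ n ^ c' + c' → 0 < θ →
      1 / 2 ≤ θ * (Real.log (2 * m) + 1) → ∃ r k1 k2 : ℕ, 1 ≤ k1 ∧ 1 ≤ k2 ∧
      (m : ℝ) ^ 2 ≤ 2 * 2 ^ r ∧
      k1 * k2 + (s + 100 * 2 ^ r * (r + 1) * (w + 1) ^ 2 + 10) ≤ n ^ c'' + c'' ∧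
      0 ≤ (1 - δ) * θ * k1 - m * Real.log (2 ^ r + 1) / δ ∧
      0 ≤ (1 - δ) * (1 - (m : ℝ) ^ 2 / (2 * 2 ^ r)) * k2 - n * Real.log 2 / δ ∧
      (1 - 8 * δ) * θ * (k1 * k2 : ℕ) ≤ ((1 - δ) * θ * k1 - m * Real.log (2 ^ r + 1) / δ) *
        ((1 - δ) * (1 - (m : ℝ) ^ 2 / (2 * 2 ^ r)) * k2 - n * Real.log 2 / δ) := by
  obtain ⟨a, ha⟩ : ∃ a : ℕ, a = max c c' + 1 := ⟨_, rfl⟩
  obtain ⟨b, hb⟩ := pow_unbounded_of_one_lt (18 / δ ^ 5 + 1 + 6400 / δ ^ 2 + 10) (one_lt_two (α := ℝ))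
  refine ⟨4 ^ (b + (6 * a + 1)), ?_⟩
  intro n m w s θ hm hmc hw hs hθ hθ1
  obtain ⟨r, k1, k2, h1, h2, h3, h4, h5, h6, h7, h8, h9⟩ := PB2_one δ hδ hδ1 n m θ hm hθ hθ1
  refine ⟨r, k1, k2, h1, h2, h3, ?_, h7, h8, h9⟩
  refine le_trans ?_ (PB2_poly (b + (6 * a + 1)) n)
  obtain ⟨X, hX⟩ : ∃ X : ℕ, X = n + 2 := ⟨_, rfl⟩
  have hX1 : 1 ≤ X := by omega
  have hXa : ∀ d, d ≤ max c c' → n ^ d + d ≤ X ^ a := by
    intro d hd
    refine (PB2_c d n).trans ?_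
    rw [← hX, ha]
    exact Nat.pow_le_pow_right hX1 (by omega)
  have hmX : m ≤ X ^ a := hmc.trans (hXa c (le_max_left _ _))
  have hwX : w ≤ X ^ a := hw.trans (hXa c' (le_max_right _ _))
  have hsX : s ≤ X ^ a := hs.trans (hXa c' (le_max_right _ _))
  obtain ⟨Y, hY⟩ : ∃ Y : ℝ, Y = (X : ℝ) ^ a := ⟨_, rfl⟩
  have hXR : (1 : ℝ) ≤ X := by exact_mod_cast hX1
  have hY1 : 1 ≤ Y := by rw [hY]; exact one_le_pow₀ hXR
  have hmY : (m : ℝ) ≤ Y := by rw [hY]; exact_mod_cast hmX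
  have hwY : (w : ℝ) ≤ Y := by rw [hY]; exact_mod_cast hwX
  have hsY : (s : ℝ) ≤ Y := by rw [hY]; exact_mod_cast hsX
  have hm0 : (0 : ℝ) ≤ m := Nat.cast_nonneg _
  have hw0 : (0 : ℝ) ≤ w := Nat.cast_nonneg _
  have hXn : (n : ℝ) + 2 = X := by rw [hX]; push_cast; ring
  have hT : (1 : ℝ) ≤ Y ^ 6 * X := by
    have : (1 : ℝ) ≤ Y ^ 6 := one_le_pow₀ hY1
    nlinarith
  have hT4 : Y ^ 4 * X ≤ Y ^ 6 * X :=
    mul_le_mul_of_nonneg_right (pow_le_pow_right₀ hY1 (by norm_num)) (by linarith)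
  have hYT : Y ≤ Y ^ 6 * X := by
    calc Y = Y ^ 1 * 1 := by ring
      _ ≤ Y ^ 6 * X := mul_le_mul (pow_le_pow_right₀ hY1 (by norm_num)) hXR (by norm_num) (by positivity)
  have hT6 : Y ^ 6 ≤ Y ^ 6 * X := le_mul_of_one_le_right (by positivity) hXR
  have e1 : (k1 : ℝ) * k2 ≤ 18 / δ ^ 5 * (Y ^ 6 * X) := by
    calc (k1 : ℝ) * k2 ≤ (18 * m ^ 4 / δ ^ 3) * ((n + 2) / δ ^ 2) :=
          mul_le_mul h5 h6 (Nat.cast_nonneg _) (by positivity)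
      _ = 18 / δ ^ 5 * (m ^ 4 * X) := by
          rw [hXn]
          field_simp
      _ ≤ 18 / δ ^ 5 * (Y ^ 4 * X) := by
          apply mul_le_mul_of_nonneg_left _ (by positivity)
          exact mul_le_mul_of_nonneg_right (pow_le_pow_left₀ hm0 hmY 4) (by linarith)
      _ ≤ _ := mul_le_mul_of_nonneg_left hT4 (by positivity)
  have hrr : (r : ℝ) + 1 ≤ 2 ^ r := by
    have : r + 1 ≤ 2 ^ r := Nat.lt_two_pow_self
    exact_mod_cast this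
  have e2 : 100 * (2 : ℝ) ^ r * (r + 1) * (w + 1) ^ 2 ≤ 6400 / δ ^ 2 * (Y ^ 6 * X) := by
    have g1 : (2 : ℝ) ^ r * (r + 1) ≤ (4 * m ^ 2 / δ) * (4 * m ^ 2 / δ) :=
      mul_le_mul h4 (hrr.trans h4) (by positivity) (by positivity)
    have g2 : ((w : ℝ) + 1) ^ 2 ≤ (2 * Y) ^ 2 := pow_le_pow_left₀ (by linarith) (by linarith) 2
    have g3 : (m : ℝ) ^ 4 ≤ Y ^ 4 := pow_le_pow_left₀ hm0 hmY 4
    calc 100 * (2 : ℝ) ^ r * (r + 1) * (w + 1) ^ 2 = 100 * ((2 : ℝ) ^ r * (r + 1)) * (w + 1) ^ 2 := by ring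
      _ ≤ 100 * ((4 * m ^ 2 / δ) * (4 * m ^ 2 / δ)) * (2 * Y) ^ 2 := by
          apply mul_le_mul _ g2 (by positivity) (by positivity)
          exact mul_le_mul_of_nonneg_left g1 (by norm_num)
      _ = 6400 / δ ^ 2 * (m ^ 4 * Y ^ 2) := by
          field_simp
          ring
      _ ≤ 6400 / δ ^ 2 * (Y ^ 4 * Y ^ 2) := by
          apply mul_le_mul_of_nonneg_left _ (by positivity)
          exact mul_le_mul_of_nonneg_right g3 (by positivity)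
      _ = 6400 / δ ^ 2 * Y ^ 6 := by ring
      _ ≤ _ := mul_le_mul_of_nonneg_left hT6 (by positivity)
  have e3 : ((k1 * k2 + (s + 100 * 2 ^ r * (r + 1) * (w + 1) ^ 2 + 10) : ℕ) : ℝ) ≤
      (X : ℝ) ^ (b + (6 * a + 1)) := by
    push_cast
    have g1 : (k1 : ℝ) * k2 + (s + 100 * (2 : ℝ) ^ r * (r + 1) * (w + 1) ^ 2 + 10) ≤
        (18 / δ ^ 5 + 1 + 6400 / δ ^ 2 + 10) * (Y ^ 6 * X) := by
      have g2 : (18 / δ ^ 5 + 1 + 6400 / δ ^ 2 + 10) * (Y ^ 6 * X) = 18 / δ ^ 5 * (Y ^ 6 * X) +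
        (Y ^ 6 * X) + 6400 / δ ^ 2 * (Y ^ 6 * X) + 10 * (Y ^ 6 * X) := by ring
      rw [g2]
      linarith
    refine g1.trans ?_
    have g3 : (18 / δ ^ 5 + 1 + 6400 / δ ^ 2 + 10) * (Y ^ 6 * X) ≤ (2 : ℝ) ^ b * (Y ^ 6 * X) :=
      mul_le_mul_of_nonneg_right hb.le (by linarith)
    refine g3.trans ?_
    have hX2 : (2 : ℝ) ≤ X := by
      have : 2 ≤ X := by omega
      exact_mod_cast this
    have g4 : (2 : ℝ) ^ b ≤ (X : ℝ) ^ b := pow_le_pow_left₀ (by norm_num) hX2 b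
    have g5 : Y ^ 6 * X = (X : ℝ) ^ (6 * a + 1) := by
      rw [hY, ← pow_mul, pow_succ, mul_comm a 6]
    rw [g5, pow_add (X : ℝ) b]
    exact mul_le_mul_of_nonneg_right g4 (by positivity)
  rw [hX] at e3
  exact_mod_cast e3

theorem PB2_proof (hTHB : THB_stmt) (hPB1 : PB1_stmt) : PB2_stmt := by
  intro ε m κ p c hε hm hmc hκ hp
  intro w V c' hV
  obtain ⟨δ, hδ⟩ : ∃ δ : ℝ, δ = min ε (1 / 2) / 8 := ⟨_, rfl⟩
  have hmin0 : 0 < min ε (1 / 2) := lt_min hε (by norm_num)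
  have hmin1 : min ε (1 / 2) ≤ 1 / 2 := min_le_right _ _
  have hmin2 : min ε (1 / 2) ≤ ε := min_le_left _ _
  have hδ0 : 0 < δ := by rw [hδ]; positivity
  have hδ1 : δ ≤ 1 / 8 := by rw [hδ]; linarith
  have h8δ : 8 * δ ≤ ε := by rw [hδ]; linarith
  obtain ⟨c'', hc''⟩ := PB2_num δ hδ0 hδ1 c c'
  refine ⟨c'', fun n => ?_⟩
  obtain ⟨_, _, hθ0, _, hθ1, _⟩ := hTHB (m n) (κ n) (hm n) (hκ n)
  obtain ⟨r, k1, k2, h1, h2, h3, h4, h5, h6, h7⟩ := hc'' n (m n) (w n) (n ^ c' + c')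
    (theta (m n) (κ n)) (hm n) (hmc n) (hV n).1 le_rfl hθ0 hθ1
  refine hPB1 n (w n) r (n ^ c' + c') (m n) (κ n) k1 k2 (n ^ c'' + c'') (V n) δ (p n) (hm n) (hκ n)
    hδ0 (by linarith) h1 h2 h3 (hV n).2 h4 h5 h6 ?_
  refine le_trans ?_ h7
  have h8 : p n ≤ (1 - 8 * δ) * theta (m n) (κ n) := by
    refine (hp n).trans ?_
    exact mul_le_mul_of_nonneg_right (by linarith) hθ0.le
  exact mul_le_mul_of_nonneg_right h8 (Nat.cast_nonneg _)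

end Pool.Agent.ISO
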